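import Pool.Agent.Helper73.RFn.GoalsG

/-!
# Project RFn (MP_c98eff_gt), packet GLU: glueing two framed Ricci flows
-/

set_option autoImplicit false

open Finset Pool.Agent.Helper47.RFn

namespace Pool.Agent.Helper77.RFn.GLU

variable {n : ℕ}

/-- agreement off `0` -/
def EqO {α : Type} (f h : EE n → α) : Prop := ∀ x, x ≠ 0 → f x = h x

theorem EqO.symm {α : Type} {f h : EE n → α} (e : EqO f h) : EqO h f := fun x hx => (e x hx).symm

theorem EqO.ed {f h : EE n → ℝ} (e : EqO f h) (i : Fin (n + 1)) : EqO (ed i f) (ed i h) := by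
  intro x hx
  have h1 : f =ᶠ[nhds x] h := by
    filter_upwards [isOpen_compl_singleton.mem_nhds hx] with y hy
    exact e y hy
  unfold Pool.Agent.Helper47.RFn.ed Pool.Agent.Helper47.RFn.pd
  rw [h1.fderiv_eq]

theorem EqO.Ew {f h : EE n → ℝ} (e : EqO f h) (w : List (Fin (n + 1))) : EqO (Ew w f) (Ew w h) := by
  induction w with
  | nil => exact e
  | cons i w ih => exact ih.ed i

theorem EqO.entry {g g' : MF n} (e : EqO g g') (i j : Fin (n + 1)) :
    EqO (fun x => g x i j) (fun x => g' x i j) := fun x hx => by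
  show g x i j = g' x i j
  rw [e x hx]

theorem EqO.Fdc {A A' : MF n} (eA : EqO A A') {f f' : EE n → ℝ} (ef : EqO f f')
    (a : Fin (n + 1)) : EqO (Fdc A a f) (Fdc A' a f') := by
  intro x hx
  unfold Pool.Agent.Helper47.RFn.Fdc
  rw [eA x hx]
  exact Finset.sum_congr rfl fun i _ => by rw [ef.ed i x hx]

theorem EqO.nfc {A A' : MF n} (eA : EqO A A') (a : Fin (n + 1)) : EqO (nfc A a) (nfc A' a) := by
  intro x hx
  unfold Pool.Agent.Helper47.RFn.nfc
  rw [eA x hx]

theorem EqO.Cc {A A' θ θ' : MF n} (eA : EqO A A') (et : EqO θ θ') (a b c : Fin (n + 1)) :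
    EqO (Cc A θ a b c) (Cc A' θ' a b c) := by
  intro x hx
  unfold Pool.Agent.Helper47.RFn.Cc
  rw [EqO.nfc eA a x hx, EqO.nfc eA b x hx, et x hx]
  congr 1
  exact Finset.sum_congr rfl fun j _ => by
    rw [EqO.Fdc eA (eA.entry b j) a x hx, EqO.Fdc eA (eA.entry a j) b x hx]

theorem EqO.Gamc {A A' θ θ' : MF n} (eA : EqO A A') (et : EqO θ θ') (a b c : Fin (n + 1)) :
    EqO (Gamc A θ a b c) (Gamc A' θ' a b c) := by
  intro x hx
  unfold Pool.Agent.Helper47.RFn.Gamc
  rw [EqO.Cc eA et a b c x hx, EqO.Cc eA et b c a x hx, EqO.Cc eA et c a b x hx]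

theorem EqO.Kf {A A' θ θ' : MF n} (eA : EqO A A') (et : EqO θ θ') (a b c d : Fin (n + 1)) :
    EqO (Kf A θ a b c d) (Kf A' θ' a b c d) := by
  intro x hx
  unfold Pool.Agent.Helper47.RFn.Kf
  rw [EqO.Fdc eA (EqO.Gamc eA et b c d) a x hx, EqO.Fdc eA (EqO.Gamc eA et a c d) b x hx]
  have h1 : ∀ f, Pool.Agent.Helper47.RFn.Gamc A θ b c f x * Pool.Agent.Helper47.RFn.Gamc A θ a f d x
      - Pool.Agent.Helper47.RFn.Gamc A θ a c f x * Pool.Agent.Helper47.RFn.Gamc A θ b f d x =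
      Pool.Agent.Helper47.RFn.Gamc A' θ' b c f x * Pool.Agent.Helper47.RFn.Gamc A' θ' a f d x
      - Pool.Agent.Helper47.RFn.Gamc A' θ' a c f x * Pool.Agent.Helper47.RFn.Gamc A' θ' b f d x := by
    intro f
    rw [EqO.Gamc eA et b c f x hx, EqO.Gamc eA et a f d x hx, EqO.Gamc eA et a c f x hx,
      EqO.Gamc eA et b f d x hx]
  have h2 : ∀ f, Pool.Agent.Helper47.RFn.Cc A θ a b f x * Pool.Agent.Helper47.RFn.Gamc A θ f c d x =
      Pool.Agent.Helper47.RFn.Cc A' θ' a b f x * Pool.Agent.Helper47.RFn.Gamc A' θ' f c d x := by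
    intro f
    rw [EqO.Cc eA et a b f x hx, EqO.Gamc eA et f c d x hx]
  rw [Finset.sum_congr rfl fun f _ => h1 f, Finset.sum_congr rfl fun f _ => h2 f]

theorem EqO.Rcf {A A' θ θ' : MF n} (eA : EqO A A') (et : EqO θ θ') (a b : Fin (n + 1)) :
    EqO (Rcf A θ a b) (Rcf A' θ' a b) := by
  intro x hx
  unfold Pool.Agent.Helper47.RFn.Rcf Pool.Agent.Helper47.RFn.Rf
  exact Finset.sum_congr rfl fun i _ => by rw [EqO.Kf eA et a i b i x hx]

/-- glueing in time -/
noncomputable def gl {α : Type} (T : ℝ) (f h : ℝ → α) : ℝ → α :=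
  fun t => if t ≤ T then f t else h (t - T)

theorem gl_left {α : Type} {T t : ℝ} (f h : ℝ → α) (ht : t ≤ T) : gl T f h t = f t := if_pos ht

theorem gl_right {α : Type} {T t : ℝ} (f h : ℝ → α) (ht : T < t) : gl T f h t = h (t - T) :=
  if_neg (not_le.2 ht)

/-- on the right part (including the end point) -/
theorem gl_ew {T t : ℝ} {f h : ℝ → EE n → ℝ} (e : EqO (h 0) (f T)) (ht : T ≤ t)
    (w : List (Fin (n + 1))) {x : EE n} (hx : x ≠ 0) :
    Ew w (gl T f h t) x = Ew w (h (t - T)) x := by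
  rcases eq_or_lt_of_le ht with h1 | h1
  · rw [← h1, gl_left f h le_rfl, sub_self]
    exact (e.Ew w x hx).symm
  · rw [gl_right f h h1]

theorem Icc_split {T τ : ℝ} (hT : 0 < T) (hτ : 0 < τ) :
    Set.Icc 0 (T + τ) = Set.Icc 0 T ∪ Set.Icc T (T + τ) :=
  (Set.Icc_union_Icc_eq_Icc hT.le (by linarith)).symm

theorem smFam_gl {T τ : ℝ} (hT : 0 < T) (hτ : 0 < τ) {f h : ℝ → EE n → ℝ}
    (hf : SmFam (Set.Icc 0 T) f) (hh : SmFam (Set.Icc 0 τ) h) (e : EqO (h 0) (f T)) :
    SmFam (Set.Icc 0 (T + τ)) (gl T f h) := by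
  constructor
  · intro t ht
    rcases le_or_gt t T with h1 | h1
    · rw [gl_left f h h1]
      exact hf.sm t ⟨ht.1, h1⟩
    · rw [gl_right f h h1]
      exact hh.sm _ ⟨by linarith, by linarith [ht.2]⟩
  · intro w
    have c1 : ∀ p : ℝ × EE n, p.2 ≠ 0 → 0 ≤ p.1 →
        ContinuousWithinAt (fun p : ℝ × EE n => Ew w (gl T f h p.1) p.2)
          ((Set.Icc 0 T) ×ˢ ({0}ᶜ : Set (EE n))) p := by
      intro p hp hp0
      rcases le_or_gt p.1 T with h1 | h1
      · refine ((hf.cont w).congr fun q hq => ?_) p ⟨⟨hp0, h1⟩, hp⟩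
        show Ew w (gl T f h q.1) q.2 = Ew w (f q.1) q.2
        rw [gl_left f h hq.1.2]
      · refine continuousWithinAt_of_notMem_closure ?_
        rw [closure_prod_eq, isClosed_Icc.closure_eq]
        intro h2
        exact absurd h2.1.2 (not_le.2 h1)
    have c2 : ∀ p : ℝ × EE n, p.2 ≠ 0 → p.1 ≤ T + τ →
        ContinuousWithinAt (fun p : ℝ × EE n => Ew w (gl T f h p.1) p.2)
          ((Set.Icc T (T + τ)) ×ˢ ({0}ᶜ : Set (EE n))) p := by
      intro p hp hp0
      rcases lt_or_ge p.1 T with h1 | h1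
      · refine continuousWithinAt_of_notMem_closure ?_
        rw [closure_prod_eq, isClosed_Icc.closure_eq]
        intro h2
        exact absurd h2.1.1 (not_le.2 h1)
      · have h3 : ContinuousOn (fun p : ℝ × EE n => Ew w (h (p.1 - T)) p.2)
            ((Set.Icc T (T + τ)) ×ˢ ({0}ᶜ : Set (EE n))) := by
          have h4 : ContinuousOn (fun p : ℝ × EE n => (p.1 - T, p.2))
              ((Set.Icc T (T + τ)) ×ˢ ({0}ᶜ : Set (EE n))) :=
            Continuous.continuousOn (by fun_prop)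
          refine (hh.cont w).comp h4 fun q hq => ⟨⟨?_, ?_⟩, hq.2⟩
          · show 0 ≤ q.1 - T
            linarith [hq.1.1]
          · show q.1 - T ≤ τ
            linarith [hq.1.2]
        refine (h3.congr fun q hq => ?_) p ⟨⟨h1, hp0⟩, hp⟩
        exact gl_ew e hq.1.1 w hq.2
    rw [Icc_split hT hτ, Set.union_prod]
    intro p hp
    have hp1 : 0 ≤ p.1 ∧ p.1 ≤ T + τ ∧ p.2 ≠ 0 := by
      rcases hp with hp | hp
      · exact ⟨hp.1.1, by linarith [hp.1.2], hp.2⟩
      · exact ⟨by linarith [hp.1.1], hp.1.2, hp.2⟩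
    exact (c1 p hp1.2.2 hp1.1).union (c2 p hp1.2.2 hp1.2.1)

theorem smFam1_gl {T τ : ℝ} (hT : 0 < T) (hτ : 0 < τ) {f f' h h' : ℝ → EE n → ℝ}
    (hf : SmFam1 (Set.Icc 0 T) f f') (hh : SmFam1 (Set.Icc 0 τ) h h') (e : EqO (h 0) (f T))
    (e' : EqO (h' 0) (f' T)) :
    SmFam1 (Set.Icc 0 (T + τ)) (gl T f h) (gl T f' h') := by
  refine ⟨smFam_gl hT hτ hf.fam hh.fam e, smFam_gl hT hτ hf.fam' hh.fam' e', fun w x hx t ht => ?_⟩
  have c1 : HasDerivWithinAt (fun s => Ew w (gl T f h s) x) (Ew w (gl T f' h' t) x)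
      (Set.Icc 0 T) t := by
    rcases le_or_gt t T with h1 | h1
    · rw [gl_left f' h' h1]
      refine (hf.der w x hx t ⟨ht.1, h1⟩).congr_of_mem (fun s hs => ?_) ⟨ht.1, h1⟩
      rw [gl_left f h hs.2]
    · refine HasFDerivWithinAt.of_notMem_closure (s := Set.Icc 0 T) ?_
      rw [isClosed_Icc.closure_eq]
      intro h2
      exact absurd h2.2 (not_le.2 h1)
  have c2 : HasDerivWithinAt (fun s => Ew w (gl T f h s) x) (Ew w (gl T f' h' t) x)
      (Set.Icc T (T + τ)) t := by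
    rcases lt_or_ge t T with h1 | h1
    · refine HasFDerivWithinAt.of_notMem_closure (s := Set.Icc T (T + τ)) ?_
      rw [isClosed_Icc.closure_eq]
      intro h2
      exact absurd h2.1 (not_le.2 h1)
    · rw [gl_ew e' h1 w hx]
      have h3 := hh.der w x hx (t - T) ⟨by linarith, by linarith [ht.2]⟩
      have h4 : HasDerivWithinAt (fun s : ℝ => s - T) 1 (Set.Icc T (T + τ)) t :=
        ((hasDerivAt_id t).sub_const T).hasDerivWithinAt
      have h5 := HasDerivWithinAt.comp t h3 h4 (fun s hs => by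
        exact ⟨by linarith [hs.1], by linarith [hs.2]⟩)
      rw [mul_one] at h5
      refine h5.congr_of_mem (fun s hs => ?_) ⟨h1, ht.2⟩
      exact gl_ew e hs.1 w hx
  rw [Icc_split hT hτ]
  exact c1.union c2

/-- glueing commutes with operations -/
theorem gl_map {α β γ : Type} (F : α → β → γ) (T : ℝ) (f h : ℝ → α) (f2 h2 : ℝ → β) (t : ℝ) :
    F (gl T f h t) (gl T f2 h2 t) = gl T (fun s => F (f s) (f2 s)) (fun s => F (h s) (h2 s)) t := by
  unfold gl
  split_ifs <;> rfl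

theorem glu : Pool.Agent.Helper73.RFn.GluStmt := by
  intro n T τ A θ A' θ' hT hτ hF hF' h0
  have eA : EqO (A' 0) (A T) := fun x hx => (h0 x hx).1
  have et : EqO (θ' 0) (θ T) := fun x hx => (h0 x hx).2
  refine ⟨gl T A A', gl T θ θ', ⟨?_, ?_, ?_, ?_⟩, ?_⟩
  · intro t ht x
    rcases le_or_gt t T with h1 | h1
    · rw [gl_left _ _ h1, gl_left _ _ h1]
      exact hF.inv t ⟨ht.1, h1⟩ x
    · rw [gl_right _ _ h1, gl_right _ _ h1]
      exact hF'.inv (t - T) ⟨by linarith, by linarith [ht.2]⟩ x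
  · intro t ht x a
    rcases le_or_gt t T with h1 | h1
    · rw [gl_left _ _ h1, gl_left _ _ h1]
      exact hF.nA t ⟨ht.1, h1⟩ x a
    · rw [gl_right _ _ h1, gl_right _ _ h1]
      exact hF'.nA (t - T) ⟨by linarith, by linarith [ht.2]⟩ x a
  · intro a i
    have h1 := smFam1_gl hT hτ (hF.flA a i) (hF'.flA a i) (eA.entry a i) (fun x hx => by
      show ∑ b, Rcf (A' 0) (θ' 0) a b x * A' 0 x b i = ∑ b, Rcf (A T) (θ T) a b x * A T x b i
      refine Finset.sum_congr rfl fun b _ => ?_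
      rw [EqO.Rcf eA et a b x hx, eA x hx])
    have h2 : gl T (fun t x => A t x a i) (fun t x => A' t x a i) =
        fun t x => gl T A A' t x a i :=
      funext fun t => (gl_map (fun (B : MF n) (_ : MF n) => fun x => B x a i) T A A' A A' t).symm
    have h3 : gl T (fun t x => ∑ b, Rcf (A t) (θ t) a b x * A t x b i)
        (fun t x => ∑ b, Rcf (A' t) (θ' t) a b x * A' t x b i) =
        fun t x => ∑ b, Rcf (gl T A A' t) (gl T θ θ' t) a b x * gl T A A' t x b i :=
      funext fun t => (gl_map (fun (B C : MF n) => fun x => ∑ b, Rcf B C a b x * B x b i)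
        T A A' θ θ' t).symm
    rw [h2, h3] at h1
    exact h1
  · intro i a
    have h1 := smFam1_gl hT hτ (hF.flt i a) (hF'.flt i a) (et.entry i a) (fun x hx => by
      show -∑ b, θ' 0 x i b * Rcf (A' 0) (θ' 0) b a x = -∑ b, θ T x i b * Rcf (A T) (θ T) b a x
      refine congrArg Neg.neg (Finset.sum_congr rfl fun b _ => ?_)
      rw [EqO.Rcf eA et b a x hx, et x hx])
    have h2 : gl T (fun t x => θ t x i a) (fun t x => θ' t x i a) =
        fun t x => gl T θ θ' t x i a :=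
      funext fun t => (gl_map (fun (B : MF n) (_ : MF n) => fun x => B x i a) T θ θ' θ θ' t).symm
    have h3 : gl T (fun t x => -∑ b, θ t x i b * Rcf (A t) (θ t) b a x)
        (fun t x => -∑ b, θ' t x i b * Rcf (A' t) (θ' t) b a x) =
        fun t x => -∑ b, gl T θ θ' t x i b * Rcf (gl T A A' t) (gl T θ θ' t) b a x :=
      funext fun t => (gl_map (fun (B C : MF n) => fun x => -∑ b, C x i b * Rcf B C b a x)
        T A A' θ θ' t).symm
    rw [h2, h3] at h1
    exact h1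
  · intro t _ ht x _
    rw [gl_left _ _ ht, gl_left _ _ ht]
    exact ⟨rfl, rfl⟩

end Pool.Agent.Helper77.RFn.GLU
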